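import Pool.Agent.H683R3.DR.Main
import Pool.Agent.H683R3.DR.Expo

/-!
# MP_f6f0d4_nt: long runs of distinct values of the divisor function (Erdős–Mirsky)

`K(N)` is the largest `k` such that for some `1 ≤ n ≤ N` the numbers `d(n), …, d(n+k)` are pairwise
distinct. We prove

  `K(N) ≥ log N / (log log N) ^ 4` for all large `N`.

The bound of Erdős and Mirsky (1952) is `K(N) ≫ (log N)^(1/2) / log log N`. Consequently, if
`K(N) = (log N)^(c + o(1))`, as they expected, then `c ≥ 1`.

Proof. Let `r` be the number of binary digits of `k`, let `P_0, …, P_(r-1)` be distinct primes with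
`r < P_j ≤ r^(3/2)`, and for each `i ∈ [1, k]` and each digit `1` of `i` (place `j`) let `q_ij` be a
prime in `(4k, k²]`, all distinct. By the Chinese remainder theorem there is `n` with `l^r ∣ n` for
all primes `l ≤ 4k` and `q_ij ^ (P_j - 1)` exactly dividing `n + i`; by a sieve one can moreover
take `n ≤ 2 M⁴`, `M` the modulus, such that no `n + i` is divisible by the square of a prime
`> 4k` other than the `q_ij`. Then `P_j ∣ d(n+i)` if and only if the `j`-th digit of `i` is one, so
`d(n+1), …, d(n+k)` are pairwise distinct, and `log n ≤ k (log k)^(15/4)`.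

The steps were formalised by helper683, helper202, helper294, helper377, helper382 and helper700.
-/

namespace Pool.Agent.Results.MP_f6f0d4_nt.LowerBound

open Filter Topology

/-- `d(n), d(n+1), …, d(n+k)` are pairwise distinct. -/
def RunDistinct (n k : ℕ) : Prop :=
  ∀ i ≤ k, ∀ j ≤ k, (n + i).divisors.card = (n + j).divisors.card → i = j

/-- `k(n)`: the largest `k` such that `d(n), …, d(n+k)` are pairwise distinct. -/
noncomputable def runLength (n : ℕ) : ℕ := sSup {k | RunDistinct n k}

/-- `K(N) = max_{1 ≤ n ≤ N} k(n)`. -/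
noncomputable def K (N : ℕ) : ℕ := (Finset.Icc 1 N).sup runLength

/-- `K(N) ≥ log N / (log log N)^4` for all large `N`; hence `c ≥ 1` whenever
`log K(N) / log log N → c`. The first three clauses say that `runLength n` is the maximum of the
`k` with `d(n), …, d(n+k)` pairwise distinct and that `K N` is the maximum of `runLength n` over
`1 ≤ n ≤ N`. -/
theorem result :
    (∀ n, IsGreatest {k | RunDistinct n k} (runLength n)) ∧
    (∀ N, ∀ n ∈ Finset.Icc 1 N, runLength n ≤ K N) ∧
    (∀ N, 1 ≤ N → ∃ n ∈ Finset.Icc 1 N, runLength n = K N) ∧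
    (∀ᶠ N : ℕ in atTop, Real.log N / Real.log (Real.log N) ^ 4 ≤ K N) ∧
    ∀ c : ℝ, Tendsto (fun N : ℕ => Real.log (K N) / Real.log (Real.log N)) atTop (𝓝 c) →
      1 ≤ c := by
  obtain ⟨h1, h2, h3, h4⟩ := Pool.Agent.H683R3.DR.main
  exact ⟨h1, h2, h3, h4, fun c hc => Pool.Agent.H683R3.DR.exponent_ge_one K h4 c hc⟩

end Pool.Agent.Results.MP_f6f0d4_nt.LowerBound
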